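import Pool.Agent.H44T.BR.ConMain

/-!
# The generalized Tate conjecture: bounded defects vanish

Let `k` be a finite field or a number field, `G` its Galois group, `H^i(X)` the `ℓ`-adic cohomology of
`X ⊗ k'`, `k'` an algebraic closure, `N^ν H^i(X)` the geometric coniveau (the span of the images of the
Gysin maps `H^(i-2ν)(Y) → H^i(X)`, `dim Y = dim X - ν`) and `N_ℓ^ν H^i(X)` the Galois coniveau (the sum
of the stable subspaces `U` with `U(ν)` entire). Fix the dimension `n`, the degree `i` and `ν ≤ i / 2`.

**Theorem.**

(1) `N^ν H^i(X) = N_ℓ^ν H^i(X)` for all smooth projective varieties `X` of dimension `n` over `k` if and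
only if there is ONE number `d`, for example `d = 10 ^ 100`, such that for all these `X` the
codimension of `N^ν H^i(X)` in `N_ℓ^ν H^i(X)` is at most `d`.

(2) For one polarized variety `(S, D)` of dimension `n`: the equality holds for `S` if, for some `N`,
some smooth complete intersection `V ⊆ S^N` of dimension `n` of divisors in multiples of the class
`D + ... + D` has the property that the codimension `d` of `N^ν H^i(V)` in `N_ℓ^ν H^i(V)` satisfies
`d dim H(S) < N`.

So one counterexample of dimension `n` gives, for every `d`, a variety of the same dimension over the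
same field for which the codimension is at least `d`.

Proof. Let `V ⊆ S^N` be as above, with the projections `p_l : V → S`. If `x ∈ N_ℓ^ν H^i(S)` is orthogonal
to the powers of `ξ` then `p_{m*} p_j^* x = 0` for `m ≠ j` and `p_{j*} p_j^* x = κ x`. Let `M` be a
complement of `N^ν H^i(V)` in `N_ℓ^ν H^i(V)` and `N > d dim H(S)`; there is a nontrivial relation
`∑ b_l p_{l*} = 0` on `M`, so `b_j κ x = ∑ b_l p_{l*} (p_j^* x)` is in the sum of the
`p_{l*} N^ν H^i(V) ⊆ N^ν H^i(S)`. The powers of `ξ` of codimension at least `ν` are supported on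
complete intersections of codimension `ν`.
-/

universe u v

namespace Pool.Agent.Results.MP_8abef2_ag.BoundedDefects

open Pool.Agent.H914 Pool.Agent.H914.VarClass Pool.Agent.H914.VarClass.Obj
  Pool.Agent.H914.WeilCohomology Pool.Agent.H44T.BR

/-- **The generalized Tate conjecture for `(ν, i)` is true for all varieties of dimension `n` if its
defects are bounded.** -/
theorem result {k : Type u} [Field k] {𝒱 : VarClass k} {ops : CycleOps 𝒱}
    (W : WeilCohomology.{u, v} ops) {G P : Type*} [Group G]
    (ρ : ∀ X : 𝒱.Obj, Representation W.K G (W.H X)) (χ : G →* W.Kˣ)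
    (hG : IsGaloisAction W ρ χ) (L : Filter P) (Fr : P → Set G)
    (Pol : ∀ X : 𝒱.Obj, X.Cycles → Prop) (n ν i : ℕ) (hi : 2 * ν ≤ i)
    (hP : HasPowers W Pol n) (hS : HasPlaneSections W Pol n ν)
    (hE : AllEntire W ρ χ L Fr (i - 2 * ν)) :
    (GenTate W ρ χ L Fr Pol n ν i ↔ ∃ d, GenTateUpTo W ρ χ L Fr Pol n ν i d) ∧
    (∀ (S : 𝒱.Obj) (D : S.Cycles), S.dim = n → Pol S D → HasGoodTatePower W ρ χ L Fr S D ν i →
      entirePart (ρ S) χ L Fr ν (W.gr S i) = geoConiveau W S ν i) :=
  ⟨genTate_iff hG hi hP hS hE, fun _ _ hSn hSD h => genTate_of_power hG hi hP hS hE hSn hSD h⟩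

end Pool.Agent.Results.MP_8abef2_ag.BoundedDefects
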