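import Pool.Agent.V1141.NG.Gtc

/-!
# Galois representations of given coniveau on all products of given varieties come from few factors

Let `X 1, …, X r` be arbitrary smooth projective varieties over a number field or a finite field `K`.
We study, for a fixed `c`, the Galois stable subspaces `V` of the `ℓ`-adic cohomology `H^n(Z)` whose
twist `V(c)` is effective of weight `n - 2 c`, for all products `Z = X i₁ × ⋯ × X iₘ` with any number
of factors (repetitions are allowed) and all `n`. A sub-product is the product over a
subsequence of the sequence of indices.

**Theorem.** For every `c` there is a number `N` such that for all products `Z` of the `X i` every
subrepresentation `V` of `H^n(Z)` such that `V(c)` is effective of weight `n - 2 c` is contained in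
the ideal of the cohomology ring of `Z` which is generated by the pull-backs of the
subrepresentations of this kind on the sub-products `Z'` of `Z` with at most `N` factors.

So the generalized Tate conjecture in coniveau `c` for all products of the `X i` (for instance, for
all powers of a variety) is a statement about finitely many Galois representations: it holds for `Z`
if it holds for the sub-products of `Z` with at most `N` factors. No conjecture (semisimplicity,
standard conjectures) is used.

The proof: words in homogeneous bases of the cohomology of the `X i` span the cohomology of
the products. By the lemma of Higman on subwords, applied to leading words, the ideals generated by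
the classes in question are, for all products with many factors, generated by the pull-backs from
proper sub-products. The geometric coniveau filtration is stable under products with all classes
and under pull-backs.
-/

set_option autoImplicit false

open CategoryTheory AlgebraicGeometry

universe u v w

namespace Pool.Agent.Results.MP_8abef2_ag.FewFactors

open Pool.Agent.H914 Pool.Agent.V1141.NG VarClass Obj WeilCohomology

/-- **The Galois representations of coniveau at least `c` on all products of given varieties are
generated by the products with a bounded number of factors.** -/
theorem result {k : Type u} [Field k] {𝒱 : VarClass k} {ops : CycleOps 𝒱}
    (W : WeilCohomology.{u, v} ops) {Γ : Type w} [Group Γ] (Φ : GaloisAction W Γ) (S : Primes Γ)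
    {r : ℕ} (X : Fin r → 𝒱.Obj) (c : ℕ) :
    ∃ N : ℕ, ∀ (i : Fin r) (I : List (Fin r)),
      (∀ n V, IsEffectiveSub Φ S (prodL X i I) n c V →
        V ≤ idealOf (HasGaloisConiveau Φ S c) X N i I) ∧
      ((∀ j J, IsSub j J i I → J.length + 1 ≤ N → GTC Φ S (prodL X j J) c) →
        GTC Φ S (prodL X i I) c) :=
  gtc_main Φ S X c

end Pool.Agent.Results.MP_8abef2_ag.FewFactors
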