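import Pool.Agent.H255R.MR.Map

/-!
# The generalized Tate conjecture for products of regular surfaces and for products of curves
-/

open CategoryTheory AlgebraicGeometry

universe u v w x

namespace Pool.Agent.Results.MP_8abef2_ag.RegularSurfaces

open Pool.Agent.H914 Pool.Agent.H914.VarClass Pool.Agent.H914.VarClass.Obj Pool.Agent.W492.BB
  Pool.Agent.W550.Corr Pool.Agent.TH133 Pool.Agent.H255R.HR Pool.Agent.H255R.MR

/-- The generalized Tate conjecture for `X` and for the coniveau `ν ≤ R`: the classes of the family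
`𝓜` (the Galois coniveau is at least `ν`) are in the family `𝓝` (the geometric coniveau is at least
`ν`). -/
def GeneralizedTate {k : Type u} [Field k] {𝒱 : VarClass k} {C : TheoryData.{u, v, 0} 𝒱 ℚ}
    {D : ModData.{u, v, x} C} (𝓜 𝓝 : Fam D) (R : ℤ) (X : 𝒱.Obj) : Prop :=
  ∀ ν ≤ R, ∀ y : D.A X, 𝓜.Mem X ν y → 𝓝.Mem X ν y

/-- Let `k` be the algebraic closure of the rational numbers, or of a finite field, and fix an
integer `w = i - 2 ν`. Consider the smooth projective varieties `X` over `k`, the sum
`D(X) = ⊕_i H^i(X, ℚ_ℓ)`, and the two families of classes `N_ℓ^ν H^{w+2ν}` (the family `𝓜`: Galois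
coniveau at least `ν`, for a model of `X`) and `N^ν H^{w+2ν}` (the family `𝓝`: geometric coniveau
at least `ν`). Both filtrations are insensitive to finite extensions of the field of definition,
and are preserved by pull-backs, push-forwards and products with cycles (with the shift of the
coniveau by the codimension). More generally, let `𝓜` and `𝓝` be two families of classes in a
module theory `D`.

Let `𝒞` be a class of curves with `HasGalQuotients` (for example all curves over `ℚ̄`, or the elliptic
and the hyperelliptic curves, or one hyperelliptic curve). For all varieties `U` and all `R` and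
`N` the following statements are equivalent.

1. The generalized Tate conjecture for the coniveau at most `R` (and `i = 2 ν + w`) holds for the
varieties `U × A` and `U × A × S`, where `A` is a product of at most `N` regular surfaces dominated by
products of two curves in `𝒞`, and `S` is a curve in `𝒞`.
2. The same without the condition that the surfaces be regular.
3. The same conjecture holds for `U × W`, where `W` is a product of at most `2 N + 1` curves
in `𝒞`.
4. The same conjecture holds for all varieties which are dominated by varieties `U × W` as in 3. -/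
theorem result {k : Type u} [Field k] {𝒱 : VarClass k} (C : TheoryData.{u, v, 0} 𝒱 ℚ)
    [IsChowProj C] {F : Type w} [Field F] [CharZero F] (H : WeilTheoryData.{u, v, w} C F)
    [IsWeilProj H] (D : ModData.{u, v, x} C) (hD : IsModTheory D) (𝓜 𝓝 : Fam D)
    (𝒞 : 𝒱.Obj → Prop) (hG : HasGalQuotients.{u, v, w, x} H 𝒞) (U : 𝒱.Obj) (R : ℤ) (N : ℕ) :
    List.TFAE [
      ∀ m ≤ N, ∀ A : 𝒱.Obj, IsProdOf U (IsRegDominated.{u, v, w, x} H 𝒞) m A →
        GeneralizedTate 𝓜 𝓝 R A ∧ ∀ S : 𝒱.Obj, 𝒞 S → GeneralizedTate 𝓜 𝓝 R (A.prod S),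
      ∀ m ≤ N, ∀ A : 𝒱.Obj, IsProdOf U (IsDominated.{u, v, x} C 𝒞) m A →
        GeneralizedTate 𝓜 𝓝 R A ∧ ∀ S : 𝒱.Obj, 𝒞 S → GeneralizedTate 𝓜 𝓝 R (A.prod S),
      ∀ l ≤ 2 * N + 1, ∀ W : 𝒱.Obj, IsProdOf U 𝒞 l W → GeneralizedTate 𝓜 𝓝 R W,
      ∀ l ≤ 2 * N + 1, ∀ W X : 𝒱.Obj, IsProdOf U 𝒞 l W → IsDominatedBy C W X →
        GeneralizedTate 𝓜 𝓝 R X] :=
  tfae1 (M := D) (𝓜 := 𝓜) (𝓝 := 𝓝) hG U R N _ fun _ => Iff.rfl

end Pool.Agent.Results.MP_8abef2_ag.RegularSurfaces
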