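import Pool.Agent.V11106.SH.Coniv

/-!
# The generalized Tate conjecture up to errors which are small compared with the Betti number

Let `W` be a Weil cohomology theory (coefficients `K`) on a class of varieties closed under
products, with a Frobenius endomorphism of all cohomology algebras, compatible with pull-backs,
which acts on the classes of cycles of codimension `j` by `q ^ j` (the `ℓ`-adic cohomology of the
smooth projective varieties over a finite field). Assume that the class contains, for every `N`, a
surface with algebraic cohomology and `N` independent divisor classes (a successive blow-up of the
projective plane in rational points).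

Let `M_r H^i(X)` be the part of `H^i(X)` on which the eigenvalues of the Frobenius endomorphism are
products of `q ^ r` and algebraic integers (the Galois coniveau), and `N_r H^i(X)` the part of
coniveau `r`: the span of the images of the cohomology of all varieties `Z` in degree `i - 2 r` under
algebraic correspondences of degree `r` from `Z` to `X`.

**Fixed dimension.** If on the varieties `Y` of dimension `n + 2` the codimension of the intersection
of `M_(r + 1) H^(i + 2)(Y)` and `N_(r + 1) H^(i + 2)(Y)` in `M_(r + 1) H^(i + 2)(Y)` is `o(b)`, where
`b` is the Betti number `b_(i + 2)(Y)`, then `M_r H^i(X)` is contained in `N_r H^i(X)` for all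
varieties `X` of dimension `n`.

**All dimensions.** Hence the generalized Tate conjecture for all varieties over the finite field is
equivalent to codimensions which are bounded for each dimension, `r` and `i`, and to codimensions
`o(b)`.
-/

open CategoryTheory AlgebraicGeometry

universe u v

namespace Pool.Agent.Results.MP_8abef2_ag.SublinearDefects

open Pool.Agent.H914 VarClass Obj WeilCohomology Pool.Agent.V11106.LB Pool.Agent.V11106.SH

variable {k : Type u} [Field k] {𝒱 : VarClass k} {ops : CycleOps 𝒱}

theorem result (W : WeilCohomology.{u, v} ops) (hT : HasRationalSurfaces W)
    (G : GaloisLike W Unit) :
    (∀ n r i : ℕ, GeneralizedTateSublinear G (n + 2) (r + 1) (i + 2) →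
      GeneralizedTate G n r i) ∧
    [∀ n r i : ℕ, GeneralizedTate G n r i, ∀ n r i : ℕ, GeneralizedTateBounded G n r i,
      ∀ n r i : ℕ, GeneralizedTateSublinear G n r i].TFAE :=
  generalizedTate_main hT G

end Pool.Agent.Results.MP_8abef2_ag.SublinearDefects
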